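import Mathlib
import Pool.Agent.T6.H78.RepN.DataN
import Pool.Agent.Q228.Rep.Main

/-!
# The least order of a rep-cube that contains all eleven edge-unfolding nets is 13

The area of a net of a cube that is a union of unit squares is a sixth of a sum of two squares, so
the order `k` of a rep-cube is a sum of two squares; there is no such `k` among `11`, `12`.  An
explicit rep-cube of order `13` contains all eleven types.
-/

set_option autoImplicit false

namespace Pool.Agent.Results.MP_a49afe_co.LeastOrder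

open Pool.Agent.Helper697.Rep Pool.Agent.R170.Net Pool.Agent.Q228.Rep Pool.Agent.T6.H78.RepN

/-- `P` is a rep-cube of order `k` that contains all eleven types, with pieces satisfying `T`:
a polyomino of area `6 k` that folds onto the surface of the cube of edge `√k` and that is divided
into `k` pieces with the property `T`, such that every edge-unfolding net of the unit cube is
congruent to one of the pieces. -/
def RepCubeAllTypes (T : Finset (ℤ × ℤ) → Prop) (k : ℕ) (P : Finset (ℤ × ℤ)) : Prop :=
  IsPolyomino P ∧ P.card = 6 * k ∧ FoldsOnto (√k) P ∧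
    ∃ Q : Finset (Finset (ℤ × ℤ)), Q.card = k ∧
      (∀ A ∈ Q, ∀ B ∈ Q, A ≠ B → Disjoint A B) ∧ Q.biUnion id = P ∧ (∀ A ∈ Q, T A) ∧
      ∀ N, IsEdgeNet N → ∃ A ∈ Q, Congruent N A

/-- `A` is a polyomino that folds, with arbitrary creases, onto the surface of the unit cube. -/
def IsUnitNet (A : Finset (ℤ × ℤ)) : Prop := IsPolyomino A ∧ FoldsOnto 1 A

/-! ### Invariants of congruence -/

/-- the number of ordered pairs of squares whose centres have squared distance `m` -/
def cnt (m : ℤ) (A : Finset (ℤ × ℤ)) : ℕ := ((A ×ˢ A).filter fun x => sqd x.1 x.2 = m).card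

lemma cnt_congr {A B : Finset (ℤ × ℤ)} (h : Congruent A B) (m : ℤ) : cnt m A = cnt m B := by
  obtain ⟨g, hg, rfl⟩ := h
  unfold cnt
  refine Finset.card_bij (fun x _ => (g x.1, g x.2)) ?_ ?_ ?_
  · intro x hx
    simp only [Finset.mem_filter, Finset.mem_product, Finset.mem_map_equiv,
      Equiv.symm_apply_apply] at hx ⊢
    exact ⟨hx.1, by rw [hg]; exact hx.2⟩
  · intro x _ y _ h
    simp only [Prod.mk.injEq, EmbeddingLike.apply_eq_iff_eq] at h
    exact Prod.ext h.1 h.2
  · intro y hy
    simp only [Finset.mem_filter, Finset.mem_product, Finset.mem_map_equiv] at hy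
    refine ⟨(g.symm y.1, g.symm y.2), ?_, by simp⟩
    simp only [Finset.mem_filter, Finset.mem_product]
    refine ⟨hy.1, ?_⟩
    rw [← hg]
    simpa using hy.2

/-- the list version of `cnt` -/
def cntL (m : ℤ) (L : List (ℤ × ℤ)) : ℕ := (L ×ˢ L).countP fun x => decide (sqd x.1 x.2 = m)

lemma cnt_toFinset {L : List (ℤ × ℤ)} (h : L.Nodup) (m : ℤ) : cnt m L.toFinset = cntL m L := by
  unfold cnt cntL
  have h1 : (L.toFinset ×ˢ L.toFinset).filter (fun x => sqd x.1 x.2 = m) =
      ((L ×ˢ L).filter fun x => decide (sqd x.1 x.2 = m)).toFinset := by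
    ext ⟨c, d⟩
    simp only [Finset.mem_filter, Finset.mem_product, List.mem_toFinset, List.mem_filter,
      decide_eq_true_eq, List.mem_product]
  rw [h1, List.countP_eq_length_filter,
    List.toFinset_card_of_nodup ((h.product h).filter _)]

/-- the invariants used -/
def invL (L : List (ℤ × ℤ)) : List ℕ := [1, 2, 4, 5, 8, 9, 10, 13, 17].map fun m => cntL m L

theorem eleven_le {Q : Finset (Finset (ℤ × ℤ))}
    (h : ∀ N, IsEdgeNet N → ∃ A ∈ Q, Congruent N A) : 11 ≤ Q.card := by
  have hok : ∀ x ∈ nX, x.ok = true := by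
    have := n_part
    simp only [partB, Bool.and_eq_true, List.all_eq_true] at this
    exact this.1
  have hrep : ∀ t : Fin 11, ∃ x ∈ nX, typ x.i = t := by
    intro t
    have := n_all
    simp only [List.all_eq_true, List.any_eq_true, List.mem_range, decide_eq_true_eq] at this
    exact this t t.2
  choose x hx hxt using hrep
  choose A hA hAc using fun t => h _ (Pc.edgeNet (hok (x t) (hx t)))
  have hinv : ∀ x ∈ nX, ∀ y ∈ nX, typ x.i ≠ typ y.i → invL x.L ≠ invL y.L := by
    decide +kernel
  have hinj : Function.Injective A := by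
    intro s t hst
    by_contra hne
    have hc : Congruent (x s).L.toFinset (x t).L.toFinset :=
      (hAc s).trans (by rw [hst]; exact (hAc t).symm)
    have hnd : ∀ t, (x t).L.Nodup := by
      intro t
      have := hok _ (hx t)
      simp only [Pc.ok, Bool.and_eq_true] at this
      exact Y211.RC.okB_nodup this.2.2
    refine hinv _ (hx s) _ (hx t) ?_ ?_
    · rw [hxt, hxt]
      exact fun e => hne (Fin.ext e)
    · unfold invL
      apply List.map_congr_left
      intro m _
      rw [← cnt_toFinset (hnd s), ← cnt_toFinset (hnd t), cnt_congr hc]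
  calc 11 = (Finset.univ : Finset (Fin 11)).card := by simp
    _ = (Finset.univ.image A).card := (Finset.card_image_of_injective _ hinj).symm
    _ ≤ Q.card := Finset.card_le_card (by
      intro B hB
      obtain ⟨t, -, rfl⟩ := Finset.mem_image.1 hB
      exact hA t)

theorem lower {T : Finset (ℤ × ℤ) → Prop} {k : ℕ} {P : Finset (ℤ × ℤ)}
    (h : RepCubeAllTypes T k P) : 13 ≤ k := by
  obtain ⟨hP, hc, hf, Q, hQ, -, -, -, hall⟩ := h
  have h11 : 11 ≤ k := hQ ▸ eleven_le hall
  have hnet : NetOfCube P := by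
    obtain ⟨f, h1, h2, h3, h4⟩ := hf
    exact ⟨√k, Real.sqrt_pos.2 (by exact_mod_cast (by omega : 0 < k)), f, h1, h2,
      fun x hx y hy hxy => h3 x hx y (interior_subset hy) hxy, h4⟩
  obtain ⟨a, b, hab⟩ := net_card hP hnet
  rw [hc] at hab
  by_contra hlt
  have hk : k = 11 ∨ k = 12 := by omega
  have ha : a ≤ 20 := by
    by_contra hh
    have : 21 ^ 2 ≤ a ^ 2 := Nat.pow_le_pow_left (by omega) 2
    omega
  have hb : b ≤ 20 := by
    by_contra hh
    have : 21 ^ 2 ≤ b ^ 2 := Nat.pow_le_pow_left (by omega) 2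
    omega
  rcases hk with rfl | rfl <;> interval_cases a <;> interval_cases b <;> omega

lemma unit_of_edgeNet {A : Finset (ℤ × ℤ)} (h : IsEdgeNet A) : IsUnitNet A := by
  obtain ⟨hA, f, h1, h2, h3, h4⟩ := h
  refine ⟨hA, f, h1, h2, h3, (fun c => square c) '' (A : Set (ℤ × ℤ)), A.finite_toSet.image _,
    ?_, ?_⟩
  · ext x
    simp [region]
  · rintro S ⟨c, hc, rfl⟩
    exact ⟨Helper697.Rep.square_convex c, Helper697.Rep.square_closed c, h4 c hc⟩

theorem upper : ∃ P, NoHoles P ∧ RepCubeAllTypes IsEdgeNet 13 P := by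
  have hF := (Pool.Agent.R170.Tilt.Dat.fold nD_ok).foldsOnto
  have h1 : Pool.Agent.R170.Tilt.kk nD.p nD.q = 13 := by decide
  rw [h1] at hF
  obtain ⟨Q, hc, hd, hu, he, hQ, hX⟩ := part_of n_nodup n_part
  have hall := n_all
  simp only [List.all_eq_true, List.any_eq_true, List.mem_range, decide_eq_true_eq] at hall
  have hpart := n_part
  simp only [partB, Bool.and_eq_true, List.all_eq_true, decide_eq_true_eq] at hpart
  have hpc := hpart.1
  refine ⟨nD.P.toFinset, noHoles_of n_holes, Pool.Agent.R170.Tilt.Dat.poly nD_ok, ?_, ?_, Q, ?_,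
    hd, hu, he, ?_⟩
  · rw [List.toFinset_card_of_nodup n_nodup]
    have := Nat.eq_of_beq_eq_true hpart.2.2.1
    rw [this, n_len]
  · exact_mod_cast hF
  · rw [hc, n_len]
  · intro N hN
    obtain ⟨n, hn, hnN⟩ := classify hN
    obtain ⟨i, hi, rfl⟩ := netL_mem n hn
    have h11 : ∀ i < 20, typ i < 11 := by decide
    obtain ⟨x, hx, hxi⟩ := hall (typ i) (h11 i hi)
    refine ⟨x.L.toFinset, hX x hx, ?_⟩
    have h2 : Congruent (netL i).toFinset (netL x.i).toFinset :=
      typ_congr hi (Pc.ilt (hpc x hx)) hxi.symm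
    exact (hnN.congr.symm.trans h2).trans (Pc.same (hpc x hx)).congr

/-- The least order of a rep-cube that contains all eleven edge-unfolding nets of the unit cube
is `13`, no matter whether the pieces may be arbitrary polyominoes that fold onto the unit cube and
the rep-cube may have holes, or the pieces have to be edge-unfolding nets and the rep-cube must
not have holes. -/
theorem result :
    IsLeast {k : ℕ | ∃ P, RepCubeAllTypes IsUnitNet k P} 13 ∧
      IsLeast {k : ℕ | ∃ P, NoHoles P ∧ RepCubeAllTypes IsEdgeNet k P} 13 := by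
  obtain ⟨P, hP, h1, h2, h3, Q, h4, h5, h6, h7, h8⟩ := upper
  refine ⟨⟨⟨P, h1, h2, h3, Q, h4, h5, h6, fun A hA => unit_of_edgeNet (h7 A hA), h8⟩, ?_⟩,
    ⟨⟨P, hP, h1, h2, h3, Q, h4, h5, h6, h7, h8⟩, ?_⟩⟩
  · rintro k ⟨P, hP⟩
    exact lower hP
  · rintro k ⟨P, -, hP⟩
    exact lower hP

end Pool.Agent.Results.MP_a49afe_co.LeastOrder
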